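import Pool.Agent.K6.H72.FB.A4

/-!
# Fibred Anosov diffeomorphisms
-/

set_option autoImplicit false
set_option linter.unusedSectionVars false

open Filter Topology Set Metric
open scoped Manifold ContDiff

namespace Pool.Agent.K6.H72.FB

open Pool.Agent.H721R2 Pool.Agent.H789R2.AN Pool.Agent.H789R2.GP Pool.Agent.TH289.K
  Pool.Agent.TH289.L Pool.Agent.TH304.K289

section manifold

variable {E : Type*} [NormedAddCommGroup E] [NormedSpace ℝ E] [FiniteDimensional ℝ E]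
  {M : Type*} [TopologicalSpace M] [T2Space M] [CompactSpace M] [ConnectedSpace M]
  [ChartedSpace E M] [IsManifold 𝓘(ℝ, E) ∞ M]
  {E' : Type*} [NormedAddCommGroup E'] [NormedSpace ℝ E'] [FiniteDimensional ℝ E']
  {M' : Type*} [TopologicalSpace M'] [T2Space M'] [CompactSpace M'] [ConnectedSpace M']
  [ChartedSpace E' M'] [IsManifold 𝓘(ℝ, E') ∞ M']

open Pool.Agent.TH289 (exists_sys_ev) in
/-- **Global product structure of fibred Anosov diffeomorphisms.** -/
theorem man_fib (f : Diffeomorph 𝓘(ℝ, E) 𝓘(ℝ, E) M M 1)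
    (Es Eu : ∀ x : M, Submodule ℝ (TangentSpace 𝓘(ℝ, E) x)) (hA : IsAnosov f Es Eu)
    (g : Diffeomorph 𝓘(ℝ, E') 𝓘(ℝ, E') M' M' 1)
    (Es' Eu' : ∀ x : M', Submodule ℝ (TangentSpace 𝓘(ℝ, E') x)) (hB : IsAnosov g Es' Eu')
    (h : M → M') (hc : Continuous h) (hh : ∀ x, h (f x) = g (h x)) (hT : LocTriv h) :
    Function.Surjective h ∧
    (GPS f.toHomeomorph ↔ GPS g.toHomeomorph ∧ FibreGPS f.toHomeomorph h) := by
  obtain ⟨m, ee, hee, hemb, hinje⟩ :=
    exists_embedding_euclidean_of_compact (I := 𝓘(ℝ, E)) (M := M)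
  obtain ⟨m', ee', hee', hemb', hinje'⟩ :=
    exists_embedding_euclidean_of_compact (I := 𝓘(ℝ, E')) (M := M')
  let _ : MetricSpace M := hemb.isEmbedding.comapMetricSpace ee
  let _ : MetricSpace M' := hemb'.isEmbedding.comapMetricSpace ee'
  have hiso : ∀ x y : M, dist x y = ‖ee x - ee y‖ := fun x y => dist_eq_norm (ee x) (ee y)
  have hiso' : ∀ x y : M', dist x y = ‖ee' x - ee' y‖ := fun x y => dist_eq_norm (ee' x) (ee' y)
  have he1 : ContMDiff 𝓘(ℝ, E) (𝓡 m) 1 ee := hee.of_le (by simp)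
  have he1' : ContMDiff 𝓘(ℝ, E') (𝓡 m') 1 ee' := hee'.of_le (by simp)
  obtain ⟨N, ⟨⟨S, hg, -, -, -⟩, ⟨S', hg', -, -, -⟩⟩, hN⟩ :=
    (((exists_sys_ev hiso he1 hinje f Es Eu hA).and
      (exists_sys_ev hiso' he1' hinje' g Es' Eu' hB)).and (eventually_ge_atTop 1)).exists
  have : ProperSpace E := FiniteDimensional.proper_real E
  have : ProperSpace E' := FiniteDimensional.proper_real E'
  obtain ⟨c, hLP⟩ := exists_LP S
  obtain ⟨c', hLP'⟩ := exists_LP S'
  rw [hg] at hLP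
  rw [hg'] at hLP'
  have hX : ULC M := ulc_of_charted (X := M) (E := E)
  have hY : ULC M' := ulc_of_charted (X := M') (E := E')
  have H : SC f.toHomeomorph g.toHomeomorph h := ⟨hc, hh⟩
  have hs : Function.Surjective h := surj_of_locTriv hc hT
  exact ⟨hs, fun hG => ⟨base_of_gps hN hLP hLP' H hT hs hG, fibre_of_gps hN hLP' H hG⟩,
    fun hG => gps_ext hN hLP hLP' hX hY H hT hG.1 hG.2⟩

end manifold

end Pool.Agent.K6.H72.FB
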