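import Pool.Agent.TH289.L.P1

/-!
# Strips: uniqueness, segments of paths, thin strips and the exchange of the two sides of a rectangle
-/

set_option autoImplicit false
set_option linter.unusedSectionVars false

open Filter Topology Set Metric unitInterval

namespace Pool.Agent.K6.H72.FB

open Pool.Agent.H789R2.AN Pool.Agent.H789R2.GP Pool.Agent.TH289.K Pool.Agent.TH289.L

variable {X : Type*} [MetricSpace X] [CompactSpace X] {g : X ≃ₜ X} {c : ℝ}

/-- uniqueness of strips -/
theorem strip_unique (h : LP g c) (Γ Γ' : C(I, Pr g)) (hx : ∀ t, (Γ t).x = (Γ' t).x) (t₀ : I)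
    (h0 : (Γ t₀).y = (Γ' t₀).y) (t : I) : (Γ t).y = (Γ' t).y := by
  have hloc := fst_isLocalHomeomorph h
  have hsep : IsSeparatedMap (Pr.fst : Pr g → SM g.symm) := T2Space.isSeparatedMap _
  have e : (Γ : I → Pr g) = Γ' := by
    refine hsep.eq_of_comp_eq hloc.isLocallyInjective Γ.continuous Γ'.continuous ?_ t₀ ?_
    · funext t
      exact SM.ext (hx t)
    · exact Pr.ext (hx t₀) h0
  rw [e]

/-- the affine parameter -/
noncomputable def aff (a b : I) (t : I) : I :=
  Set.projIcc 0 1 zero_le_one ((a : ℝ) + ((b : ℝ) - a) * t)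

theorem aff_val (a b t : I) : ((aff a b t : I) : ℝ) = (a : ℝ) + ((b : ℝ) - a) * t := by
  unfold aff
  rw [Set.projIcc_of_mem]
  constructor
  · have h1 : (a : ℝ) + ((b : ℝ) - a) * t = a * (1 - t) + b * t := by ring
    rw [h1]
    have := a.2.1; have := b.2.1; have := t.2.1; have := t.2.2
    exact add_nonneg (mul_nonneg (by assumption) (by linarith)) (mul_nonneg (by assumption) (by assumption))
  · have h1 : (a : ℝ) + ((b : ℝ) - a) * t = a * (1 - t) + b * t := by ring
    rw [h1]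
    have h2 := a.2.2; have h3 := b.2.2; have h4 := t.2.1; have h5 := t.2.2
    nlinarith [mul_le_mul_of_nonneg_right h2 (by linarith : (0:ℝ) ≤ 1 - t),
      mul_le_mul_of_nonneg_right h3 h4]

theorem continuous_aff (a b : I) : Continuous (aff a b) := by
  unfold aff
  exact continuous_projIcc.comp (by fun_prop)

theorem aff_zero (a b : I) : aff a b 0 = a := Subtype.ext (by rw [aff_val]; simp)

theorem aff_one (a b : I) : aff a b 1 = b := Subtype.ext (by rw [aff_val]; simp)

theorem aff_full (t : I) : aff 0 1 t = t := Subtype.ext (by rw [aff_val]; simp)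

/-- the segment of a path between two parameters -/
noncomputable def seg {Z : Type*} [TopologicalSpace Z] (υ : C(I, Z)) (a b : I) : C(I, Z) :=
  ⟨fun t => υ (aff a b t), υ.continuous.comp (continuous_aff a b)⟩

theorem seg_apply {Z : Type*} [TopologicalSpace Z] (υ : C(I, Z)) (a b t : I) :
    seg υ a b t = υ (aff a b t) := rfl

theorem seg_zero {Z : Type*} [TopologicalSpace Z] (υ : C(I, Z)) (a b : I) : seg υ a b 0 = υ a := by
  rw [seg_apply, aff_zero]

theorem seg_one {Z : Type*} [TopologicalSpace Z] (υ : C(I, Z)) (a b : I) : seg υ a b 1 = υ b := by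
  rw [seg_apply, aff_one]

theorem seg_full {Z : Type*} [TopologicalSpace Z] (υ : C(I, Z)) : seg υ 0 1 = υ := by
  ext t
  rw [seg_apply, aff_full]

theorem aff_mem_ball {a b t t₀ : I} {δ : ℝ} (ha : dist a t₀ < δ) (hb : dist b t₀ < δ) :
    dist (aff a b t) t₀ < δ := by
  rw [Subtype.dist_eq, Real.dist_eq, abs_lt] at ha hb ⊢
  rw [aff_val]
  have h1 : (a : ℝ) + ((b : ℝ) - a) * t - t₀ = (a - t₀) * (1 - t) + (b - t₀) * t := by ring
  rw [h1]
  have h2 := t.2.1
  have h3 := t.2.2
  rcases lt_or_ge (t : ℝ) (1 / 2) with h4 | h4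
  · constructor
    · nlinarith [mul_lt_mul_of_pos_right ha.1 (by linarith : (0:ℝ) < 1 - t),
        mul_le_mul_of_nonneg_right hb.1.le h2]
    · nlinarith [mul_lt_mul_of_pos_right ha.2 (by linarith : (0:ℝ) < 1 - t),
        mul_le_mul_of_nonneg_right hb.2.le h2]
  · constructor
    · nlinarith [mul_le_mul_of_nonneg_right ha.1.le (by linarith : (0:ℝ) ≤ 1 - t),
        mul_lt_mul_of_pos_right hb.1 (by linarith : (0:ℝ) < t)]
    · nlinarith [mul_le_mul_of_nonneg_right ha.2.le (by linarith : (0:ℝ) ≤ 1 - t),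
        mul_lt_mul_of_pos_right hb.2 (by linarith : (0:ℝ) < t)]

/-- bisection -/
theorem bisect (S : I → I → Prop)
    (hmid : ∀ a b m : I, a ≤ b → (m : ℝ) = (a + b) / 2 → S a m → S m b → S a b)
    {δ : ℝ} (hδ : 0 < δ) (hloc : ∀ a b : I, a ≤ b → (b : ℝ) - a < δ → S a b) : S 0 1 := by
  have key : ∀ N : ℕ, ∀ a b : I, a ≤ b → (b : ℝ) - a < 2 ^ N * δ → S a b := by
    intro N
    induction N with
    | zero => intro a b hab h; exact hloc a b hab (by simpa using h)
    | succ N ih =>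
      intro a b hab h
      have hab' : (a : ℝ) ≤ b := hab
      have hm : (a + b : ℝ) / 2 ∈ Icc (0 : ℝ) 1 := by
        have := a.2.1; have := b.2.1; have := a.2.2; have := b.2.2
        constructor <;> linarith
      refine hmid a b ⟨_, hm⟩ hab rfl (ih _ _ ?_ ?_) (ih _ _ ?_ ?_)
      · show (a : ℝ) ≤ (a + b) / 2; linarith
      · show (a + b : ℝ) / 2 - a < _; rw [pow_succ] at h; linarith
      · show (a + b : ℝ) / 2 ≤ b; linarith
      · show (b : ℝ) - (a + b) / 2 < _; rw [pow_succ] at h; linarith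
  obtain ⟨N, hN⟩ : ∃ N : ℕ, 1 < 2 ^ N * δ := by
    obtain ⟨N, hN⟩ := pow_unbounded_of_one_lt (1 / δ) (by norm_num : (1 : ℝ) < 2)
    exact ⟨N, by rwa [div_lt_iff₀ hδ] at hN⟩
  exact key N 0 1 (by exact zero_le_one) (by simpa using hN)

/-- the continuation principle: a strip can be continued along `υ` if it can be continued
locally, from every good position. -/
theorem engine_cont (υ : C(I, SM g.symm)) (G : I → X → Prop)
    (hloc : ∀ t₀ : I, ∃ δ > 0, ∀ a b : I, dist a t₀ < δ → dist b t₀ < δ → ∀ y, G a y →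
      ∃ y', G b y' ∧ LO (seg υ a b) y y') (s : X) (hs : G 0 s) : ∃ x, G 1 x ∧ LO υ s x := by
  choose δ hδ hl using hloc
  obtain ⟨ρ, hρ, hleb⟩ := lebesgue_number_lemma_of_metric (isCompact_univ (X := I))
    (c := fun t₀ : I => ball t₀ (δ t₀)) (fun _ => isOpen_ball)
    (fun t _ => mem_iUnion.mpr ⟨t, mem_ball_self (hδ t)⟩)
  have key := bisect (fun a b => ∀ y, G a y → ∃ y', G b y' ∧ LO (seg υ a b) y y') ?_ hρ ?_
  · obtain ⟨x, hx, hL⟩ := key s hs
    rw [seg_full] at hL
    exact ⟨x, hx, hL⟩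
  · intro a b m hab hm h1 h2 y hy
    obtain ⟨y1, hy1, hL1⟩ := h1 y hy
    obtain ⟨y2, hy2, hL2⟩ := h2 y1 hy1
    refine ⟨y2, hy2, LO_trans ?_ ?_ hL1 hL2⟩
    · intro t s hst
      rw [seg_apply, seg_apply]
      congr 1
      apply Subtype.ext
      rw [aff_val, aff_val, hst, hm]
      ring
    · intro t s hst
      rw [seg_apply, seg_apply]
      congr 1
      apply Subtype.ext
      rw [aff_val, aff_val, hst, hm]
      ring
  · intro a b hab hd y hy
    obtain ⟨t₀, ht⟩ := hleb a (mem_univ a)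
    refine hl t₀ a b (ht (mem_ball_self hρ)) (ht ?_) y hy
    rw [mem_ball, Subtype.dist_eq, Real.dist_eq,
      abs_of_nonneg (sub_nonneg.2 (show (a : ℝ) ≤ b from hab))]
    exact hd

/-- thin strips: a small unstable displacement slides along a stable path -/
theorem thin_lift (h : LP g c) (ρ : C(I, SM g)) : ∃ n : ℕ, ∀ ε > 0, ∃ η > 0, ∀ u : X,
    SR g.symm η (ρ 0).val u → ∃ Γ : C(I, Pr g.symm), (∀ r, (Γ r).x = (ρ r).val) ∧ (Γ 0).y = u ∧
      (∀ r, SR g c (g^[n] u) (g^[n] (Γ r).y)) ∧ ∀ r, SR g.symm ε (ρ r).val (Γ r).y := by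
  have hc := h.c_pos
  obtain ⟨br, δ, hδ, b1, b2, b3, b4⟩ := exists_br h.symm
  set η₀ := min (δ / 3) (c / 3) with hη₀
  have hη₀0 : 0 < η₀ := lt_min (by positivity) (by positivity)
  have e1 : η₀ ≤ δ / 3 := min_le_left _ _
  have e2 : η₀ ≤ c / 3 := min_le_right _ _
  obtain ⟨n, hn⟩ := path_small h ρ hη₀0
  have hn := hn n le_rfl
  refine ⟨n, fun ε hε => ?_⟩
  have hcm : ∀ x, g (g.symm x) = g.symm (g x) := fun x => by
    rw [g.symm_apply_apply, g.apply_symm_apply]
  obtain ⟨η₁, hη₁, hd1⟩ := qs_SR_of_dist h.symm ε hε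
  obtain ⟨η₂, hη₂, hd2⟩ := b4 η₁ hη₁
  obtain ⟨η, hη, H⟩ := map_SM_iter (g := g.symm) (φ := g) hcm n (min η₀ (η₂ / 2))
    (lt_min hη₀0 (by positivity))
  refine ⟨η, hη, fun u hu => ?_⟩
  have hu' := H _ _ hu
  obtain ⟨v, hv⟩ := path_iter (g := g.symm) n ρ
  have hv : ∀ t, (v t).val = g^[n] (ρ t).val := hv
  have hvu : ∀ t, dist (v t).val (g^[n] u) < δ := by
    intro t
    rw [hv]
    have a1 := (hn t).dist12
    have a2 := (hu'.mono (min_le_left _ _)).dist12
    have a3 := dist_triangle_left (g^[n] (ρ t).val) (g^[n] u) (g^[n] (ρ 0).val)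
    linarith
  obtain ⟨Γ₀, g1, g2⟩ := br_strip h.symm b1 b4 v (g^[n] u) hvu
  obtain ⟨Γ, k1, k2⟩ := strip_iter n Γ₀
  have hst : g^[n] u = br (v 0).val (g^[n] u) := by
    refine b3 _ _ _ (hvu 0) ?_ ?_
    · rw [hv]
      exact (hu'.mono (min_le_left _ _)).mono e2
    · exact SR_zero (by positivity)
  refine ⟨Γ, fun r => ?_, ?_, fun r => ?_, fun r => ?_⟩
  · rw [k1, g1, hv]
    exact iterL g n _
  · rw [k2, g2, ← hst]
    exact iterL g n _
  · have e3 : g^[n] (Γ r).y = br (v r).val (g^[n] u) := by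
      rw [k2, g2]
      exact iterR g n _
    rw [e3]
    exact (b1 _ _ (hvu r)).2.mono (by linarith)
  · -- closeness
    have h0 : (v r).val = br (v r).val (g^[n] (ρ 0).val) := by
      have a1 : dist (v r).val (g^[n] (ρ 0).val) < δ := by
        rw [hv, dist_comm]
        have := (hn r).dist12
        linarith
      refine b3 _ _ _ a1 (SR_zero (by positivity)) ?_
      rw [hv]
      exact (hn r).mono e2
    have h1 : dist (v r).val (br (v r).val (g^[n] u)) < η₁ := by
      have a1 : dist (v r).val (g^[n] (ρ 0).val) < δ := by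
        rw [hv, dist_comm]
        have := (hn r).dist12
        linarith
      have a2 : dist (g^[n] (ρ 0).val) (g^[n] u) < η₂ := by
        have := (hu'.mono (min_le_right _ _)).dist12
        linarith
      have a3 := hd2 _ _ _ _ a1 (hvu r) (by rw [dist_self]; exact hη₂)
        a2
      rwa [← h0] at a3
    have h2 : SR g.symm ε (v r).val (br (v r).val (g^[n] u)) :=
      hd1 _ _ ((b1 _ _ (hvu r)).1.mono (by linarith)) h1
    have h3 := h2.it12 n
    have e3 : (ρ r).val = g.symm^[n] (v r).val := by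
      rw [hv]
      exact (iterL g n _).symm
    rw [e3, k2, g2]
    exact h3

/-- exchange of the sides: if all the unstable displacements `a → υ t` slide along the stable path
`α`, then the stable displacement `a → α 1` slides along `υ`. -/
theorem flip (h : LP g c) (α : C(I, SM g)) (υ : C(I, SM g.symm)) (h0 : (α 0).val = (υ 0).val)
    (H : ∀ t, ∃ Γ : C(I, Pr g.symm), (∀ r, (Γ r).x = (α r).val) ∧ (Γ 0).y = (υ t).val) :
    ∃ x, LO υ (α 1).val x := by
  choose Γ hΓx hΓ0 using H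
  -- the opposite side
  have hpath : ∀ t, Continuous fun r => ((Γ t r).snd : SM g) := fun t =>
    ((Pr.continuous_iff (Γ t)).1 (Γ t).continuous).2.1
  have hW : ∀ t, WS g (υ t).val (Γ t 1).y := fun t => by
    have := WS_of_path h ⟨fun r => ((Γ t r).snd : SM g), hpath t⟩ 0 1
    have e : ((Γ t 0).snd : SM g).val = (υ t).val := hΓ0 t
    rw [← e]
    exact this
  have hR0 : (Γ 0 1).y = (α 1).val := by
    obtain ⟨Γ', g0, g1, g2⟩ := LO_diag (g := g.symm) α
    refine Eq.trans (strip_unique h.symm (Γ 0) Γ' (fun t => ?_) 0 ?_ 1) g1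
    · exact (hΓx 0 t).trans (g2 t).symm
    · exact ((hΓ0 0).trans h0.symm).trans g0.symm
  -- local comparison
  have hcmp : ∀ t₀ : I, ∃ n : ℕ, ∀ ε > 0, ∀ᶠ t in 𝓝 t₀,
      SR g c (g^[n] (υ t).val) (g^[n] (Γ t 1).y) ∧ SR g.symm ε (Γ t₀ 1).y (Γ t 1).y := by
    intro t₀
    let ρ : C(I, SM g) := ⟨fun r => ((Γ t₀ r).snd : SM g), hpath t₀⟩
    obtain ⟨n, hn⟩ := thin_lift h ρ
    refine ⟨n, fun ε hε => ?_⟩
    obtain ⟨η, hη, h1⟩ := hn ε hε
    filter_upwards [(Metric.continuous_iff'.1 υ.continuous) t₀ η hη] with t ht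
    have h2 : SR g.symm η (υ t₀).val (υ t).val := by
      have := (SM.dist_le _ _ hη.le).1 ht.le
      exact this.symm'
    have e0 : (ρ 0).val = (υ t₀).val := hΓ0 t₀
    obtain ⟨Γs, s1, s2, s3, s4⟩ := h1 (υ t).val (by rw [e0]; exact h2)
    obtain ⟨Γc, c1, c2⟩ := strip_comp (Γ t₀) Γs (fun r => s1 r)
    have key : ∀ r, (Γ t r).y = (Γs r).y := by
      intro r
      rw [← c2]
      refine strip_unique h.symm (Γ t) Γc (fun r => by rw [hΓx, c1, hΓx]) 0 ?_ r
      rw [hΓ0, c2, s2]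
    rw [key 1]
    exact ⟨s3 1, s4 1⟩
  let F : I → Pr g := fun t => ⟨(υ t).val, (Γ t 1).y, hW t⟩
  have hF : Continuous F := by
    rw [Pr.continuous_iff]
    refine ⟨υ.continuous, ?_, fun t₀ ε hε => ?_⟩
    · rw [Metric.continuous_iff']
      intro t₀ ε hε
      obtain ⟨n, hn⟩ := hcmp t₀
      filter_upwards [hn (ε / 2) (half_pos hε)] with t ht
      have h5 : dist ((F t).snd) ((F t₀).snd) ≤ ε / 2 :=
        (SM.dist_le _ _ (half_pos hε).le).2 ht.2.symm'
      exact lt_of_le_of_lt h5 (half_lt_self hε)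
    · obtain ⟨n, hn⟩ := hcmp t₀
      obtain ⟨N, hN⟩ := qs_exists_pow h.c_pos hε
      refine ⟨n + N, ?_⟩
      filter_upwards [hn 1 one_pos] with t ht k hk
      have h5 := h.cS _ _ ht.1 (k - n)
      rw [← Function.iterate_add_apply, ← Function.iterate_add_apply,
        Nat.sub_add_cancel (by omega)] at h5
      exact h5.trans (hN (k - n) (by omega)).le
  exact ⟨(Γ 1 1).y, ⟨F, hF⟩, hR0, rfl, fun t => rfl⟩

end Pool.Agent.K6.H72.FB
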