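import Pool.Agent.K6.H72.FB.A1

/-!
# Strips in the total space of a fibration over a space with global product structure
-/

set_option autoImplicit false
set_option linter.unusedSectionVars false

open Filter Topology Set Metric unitInterval

namespace Pool.Agent.K6.H72.FB

open Pool.Agent.H789R2.AN Pool.Agent.H789R2.GP Pool.Agent.TH289.K Pool.Agent.TH289.L

variable {X Y : Type*} [MetricSpace X] [MetricSpace Y] [CompactSpace X] [CompactSpace Y]
  {g : X ≃ₜ X} {k : Y ≃ₜ Y} {h : X → Y} {c c' : ℝ}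

theorem map_SM_cont (H : SC g k h) : Continuous fun z : SM g => (⟨h z.val⟩ : SM k) := by
  rw [Metric.continuous_iff]
  intro z ε hε
  obtain ⟨η, hη, h1⟩ := H.mapS (half_pos hε)
  refine ⟨η, hη, fun z' hz' => ?_⟩
  refine lt_of_le_of_lt ((SM.dist_le _ _ (half_pos hε).le).mpr ?_) (half_lt_self hε)
  exact h1 _ _ ((SM.dist_le _ _ hη.le).mp hz'.le)

/-- the image of a stable path -/
theorem map_path (H : SC g k h) (υ : C(I, SM g)) :
    ∃ υ' : C(I, SM k), ∀ t, (υ' t).val = h (υ t).val :=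
  ⟨⟨fun t => ⟨h (υ t).val⟩, (map_SM_cont H).comp υ.continuous⟩, fun _ => rfl⟩

/-- the image of a strip -/
theorem map_strip (H : SC g k h) (Γ : C(I, Pr g)) :
    ∃ Γ' : C(I, Pr k), (∀ t, (Γ' t).x = h (Γ t).x) ∧ ∀ t, (Γ' t).y = h (Γ t).y := by
  have c1 := (Pr.continuous_iff Γ).1 Γ.continuous
  refine ⟨⟨fun t => ⟨h (Γ t).x, h (Γ t).y, SC.wS H (Γ t).h⟩, ?_⟩, fun _ => rfl, fun _ => rfl⟩
  rw [Pr.continuous_iff]
  refine ⟨(map_SM_cont H.symm).comp c1.1, (map_SM_cont H.symm).comp c1.2.1, fun t ε hε => ?_⟩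
  have hu : UniformContinuous h := CompactSpace.uniformContinuous_of_continuous H.cont
  obtain ⟨δ, hδ, h1⟩ := Metric.uniformContinuous_iff.mp hu ε hε
  obtain ⟨n, hn⟩ := c1.2.2 t (δ / 2) (half_pos hδ)
  refine ⟨n, ?_⟩
  filter_upwards [hn] with r hr m hm
  show dist (k^[m] (h (Γ r).x)) (k^[m] (h (Γ r).y)) ≤ ε
  rw [← H.iter, ← H.iter]
  exact (h1 (lt_of_le_of_lt (hr m hm) (half_lt_self hδ))).le

/-- displacements in stable leaves can be lifted -/
def DL (g : X ≃ₜ X) (k : Y ≃ₜ Y) (h : X → Y) : Prop :=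
  ∀ (a : X) (s' : Y), WS k (h a) s' → ∃ s, WS g a s ∧ h s = s'

theorem engine (hg : LP g c) (hk : LP k c') (H : SC g k h) (hDL : DL g k h) (v : Prop)
    (hv : ∀ a s, WS g a s → h a = h s → ∀ υ : C(I, SM g.symm), (υ 0).val = a →
      (v → ∀ t, h (υ t).val = h a) → ∃ x, LO υ s x)
    (hb : ∀ a' s' : Y, WS k a' s' → ∀ υ' : C(I, SM k.symm), (υ' 0).val = a' →
      (v → ∀ t, (υ' t).val = a') → ∃ x, LO υ' s' x)
    {a s : X} (has : WS g a s) (υ : C(I, SM g.symm)) (h0 : (υ 0).val = a)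
    (hvυ : v → ∀ t, h (υ t).val = h a) : ∃ x, LO υ s x := by
  obtain ⟨υ', hυ'⟩ := map_path H.symm υ
  have hυ' : ∀ t, (υ' t).val = h (υ t).val := hυ'
  obtain ⟨x', Γb, b0, -, b2⟩ := hb (h a) (h s) (SC.wS H has) υ' (by rw [hυ', h0])
    (fun hv t => by rw [hυ', hvυ hv])
  -- in the vertical case the opposite side is constant
  have hconst : v → ∀ t, (Γb t).y = h s := by
    intro hv t
    refine strip_unique hk Γb (ContinuousMap.const I ⟨h a, h s, SC.wS H has⟩) (fun t => ?_) 0 b0 t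
    rw [b2, hυ', hvυ hv]
    rfl
  have hbW : ∀ t, WS k (h (υ t).val) (Γb t).y := fun t => by
    have := (Γb t).h
    rwa [b2, hυ'] at this
  suffices hsuff : ∀ t₀ : I, ∃ δ > 0, ∀ a b : I, dist a t₀ < δ → dist b t₀ < δ → ∀ y,
      (WS g (υ a).val y ∧ h y = (Γb a).y) →
      ∃ y', (WS g (υ b).val y' ∧ h y' = (Γb b).y) ∧ LO (seg υ a b) y y' by
    obtain ⟨x, -, hL⟩ := engine_cont υ (fun t y => WS g (υ t).val y ∧ h y = (Γb t).y) hsuff s
      ⟨by rw [h0]; exact has, b0.symm⟩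
    exact ⟨x, hL⟩
  intro t₀
  obtain ⟨w₀, hw1, hw2⟩ := hDL (υ t₀).val (Γb t₀).y (hbW t₀)
  let q₀ : Pr g := ⟨(υ t₀).val, w₀, hw1⟩
  obtain ⟨e, he1, he2⟩ := fst_isLocalHomeomorph hg q₀
  have hfst : ∀ q, Pr.fst q = e q := fun q => by rw [← he2]
  have hq0 : e q₀ = υ t₀ := (hfst q₀).symm
  have hmem : e.target ∈ 𝓝 (υ t₀) := by
    rw [← hq0]
    exact e.open_target.mem_nhds (e.map_source he1)
  obtain ⟨δ, hδ, hδ'⟩ := Metric.mem_nhds_iff.1 (υ.continuous.continuousAt.preimage_mem_nhds hmem)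
  have hin : ∀ t, dist t t₀ < δ → υ t ∈ e.target := fun t ht => hδ' ht
  -- local strips
  have hstrip : ∀ a b : I, dist a t₀ < δ → dist b t₀ < δ → ∃ Γ : C(I, Pr g),
      (∀ t, Γ t = e.symm (υ (aff a b t))) ∧ ∀ t, (Γ t).x = (υ (aff a b t)).val := by
    intro a b ha hb
    have hm : ∀ t, υ (aff a b t) ∈ e.target := fun t => hin _ (aff_mem_ball ha hb)
    refine ⟨⟨fun t => e.symm (υ (aff a b t)), e.continuousOn_symm.comp_continuous
      (υ.continuous.comp (continuous_aff a b)) hm⟩, fun _ => rfl, fun t => ?_⟩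
    have h1 : Pr.fst (e.symm (υ (aff a b t))) = υ (aff a b t) := by
      rw [hfst, e.right_inv (hm t)]
    exact congrArg SM.val h1
  have hWy : ∀ t, dist t t₀ < δ → h (e.symm (υ t)).y = (Γb t).y := by
    intro t ht
    obtain ⟨Γ1, g1, g2⟩ := hstrip t₀ t (by rw [dist_self]; exact hδ) ht
    obtain ⟨Γ2, k1, k2⟩ := map_strip H Γ1
    have h5 := strip_unique hk Γ2 (seg Γb t₀ t) (fun r => ?_) 0 ?_ 1
    · rw [k2, g1, aff_one, seg_one] at h5
      exact h5
    · rw [k1, g2, seg_apply, b2, hυ']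
    · rw [k2, g1, aff_zero, seg_zero, ← hq0, e.left_inv he1]
      exact hw2
  refine ⟨δ, hδ, fun a b ha hb y hy => ?_⟩
  obtain ⟨Γw, g1, g2⟩ := hstrip a b ha hb
  have hcy : Continuous fun t => (Γw t).snd := ((Pr.continuous_iff Γw).1 Γw.continuous).2.1
  let υw : C(I, SM g.symm) := ⟨fun t => (Γw t).snd, hcy⟩
  have hwv : ∀ t, h (Γw t).y = (Γb (aff a b t)).y := fun t => by
    rw [g1]
    exact hWy _ (aff_mem_ball ha hb)
  have hW1 : WS g (Γw 0).y y := by
    have e1 := (Γw 0).h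
    rw [g2, aff_zero] at e1
    exact e1.symm'.trans hy.1
  have hW2 : h (Γw 0).y = h y := by
    rw [hwv, aff_zero, hy.2]
  obtain ⟨x, Γv, v0, v1, v2⟩ := hv _ _ hW1 hW2 υw rfl (fun hv t => by
    show h (Γw t).y = _
    rw [hwv, hwv, hconst hv, hconst hv])
  have hLO : LO (seg υ a b) y x := by
    refine LO_comp (υ' := υw) ⟨Γw, rfl, rfl, fun t => ?_, fun t => rfl⟩ ⟨Γv, v0, v1, v2⟩
    rw [g2]
    rfl
  refine ⟨x, ⟨?_, ?_⟩, hLO⟩
  · have := hLO.ws_end
    rwa [seg_one] at this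
  · -- the image
    obtain ⟨Γ2, k1, k2⟩ := map_strip H Γv
    have hcb : Continuous fun t => (Γb t).snd := ((Pr.continuous_iff Γb).1 Γb.continuous).2.1
    let υb : C(I, SM k.symm) := seg ⟨fun t => (Γb t).snd, hcb⟩ a b
    obtain ⟨Γd, d0, d1, d2⟩ := LO_diag υb
    have h5 := strip_unique hk Γ2 Γd (fun r => ?_) 0 ?_ 1
    · rw [k2, v1, d1] at h5
      rw [h5]
      show (Γb (aff a b 1)).y = _
      rw [aff_one]
    · rw [k1, v2, d2]
      show h (Γw r).y = (Γb (aff a b r)).y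
      rw [hwv]
    · rw [k2, v0, d0, hy.2]
      show (Γb a).y = (Γb (aff a b 0)).y
      rw [aff_zero]

/-- **The extension principle.** -/
theorem lf_of_fib (hg : LP g c) (hk : LP k c') (H : SC g k h) (hS : DL g k h)
    (hU : DL g.symm k.symm h)
    (hVP : ∀ a s, WS g a s → h a = h s → ∃ α : C(I, SM g), (α 0).val = a ∧ (α 1).val = s ∧
      ∀ r, h (α r).val = h a)
    (hV2 : ∀ a u, WS g.symm a u → h a = h u → ∀ α : C(I, SM g), (α 0).val = a →
      (∀ r, h (α r).val = h a) → ∃ x, LO (g := g.symm) α u x)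
    (hb : ∀ a s, WS k a s → Lf k a s) : ∀ a s, WS g a s → Lf g a s := by
  have H1' : ∀ a u, WS g.symm a u → ∀ α : C(I, SM g), (α 0).val = a → (∀ r, h (α r).val = h a) →
      ∃ x, LO (g := g.symm) α u x := by
    intro a u hau α hα0 hαv
    refine engine hg.symm hk.symm H.symm hU True ?_ ?_ hau α hα0 (fun _ => hαv)
    · intro a u hau he α hα0 hαv
      exact hV2 a u hau he α hα0 (hαv trivial)
    · intro a' s' has υ' h0 hv
      exact ⟨s', ContinuousMap.const I ⟨a', s', has⟩, rfl, rfl, fun t => (hv trivial t).symm⟩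
  have H1 : ∀ a s, WS g a s → h a = h s → ∀ υ : C(I, SM g.symm), (υ 0).val = a →
      ∃ x, LO υ s x := by
    intro a s has he υ hυ0
    obtain ⟨α, α0, α1, αv⟩ := hVP a s has he
    rw [← α1]
    refine flip hg α υ (by rw [α0, hυ0]) fun t => ?_
    have h1 : WS g.symm a (υ t).val := by
      have := WS_of_path hg.symm υ 0 t
      rwa [hυ0] at this
    obtain ⟨x, Γ, g0, -, g2⟩ := H1' a (υ t).val h1 α α0 αv
    exact ⟨Γ, g2, g0⟩
  intro a s has υ hυ0
  refine engine hg hk H hS False ?_ ?_ has υ hυ0 (fun h => h.elim)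
  · intro a s has he υ h0 _
    exact H1 a s has he υ h0
  · intro a' s' has υ' h0 _
    exact hb a' s' has υ' h0

end Pool.Agent.K6.H72.FB
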