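import Pool.Agent.TH289.K.Def

/-!
# Definitions: locally trivial maps and product structure in the fibres
-/

set_option autoImplicit false

open Filter Topology Set unitInterval

namespace Pool.Agent.K6.H72.FB

open Pool.Agent.TH289.K

/-- `h` is a locally trivial fibre bundle: every point `b` has a neighbourhood over which `h` is
trivial (with fibre `h⁻¹(b)`). -/
def LocTriv {M N : Type*} [TopologicalSpace M] [TopologicalSpace N] (h : M → N) : Prop :=
  ∀ b : N, ∃ e : Bundle.Trivialization (h ⁻¹' {b}) h, b ∈ e.baseSet

/-- Global product structure of `f` in the fibres of `h`: every stable path `α` and every unstable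
path `β` of `f` with the same initial point that stay in one fibre of `h` span a rectangle in this
fibre: a continuous map `R` of the square into the fibre with `R(·, 0) = α`, `R(0, ·) = β` whose
horizontal sides are contracted uniformly by the iterates of `f` and whose vertical sides are
contracted uniformly by the iterates of `f⁻¹`. -/
def FibreGPS {M N : Type*} [TopologicalSpace M] (f : M ≃ₜ M) (h : M → N) : Prop :=
  ∀ α β : C(I, M), StablePath f α → StablePath f.symm β → α 0 = β 0 →
    (∀ s, h (α s) = h (α 0)) → (∀ t, h (β t) = h (β 0)) →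
    ∃ R : C(I × I, M), (∀ s, R (s, 0) = α s) ∧ (∀ t, R (0, t) = β t) ∧
      (∀ p, h (R p) = h (α 0)) ∧
      ∀ 𝒰 ∈ 𝓝ˢ (diagonal M), ∀ᶠ n in atTop, ∀ s t,
        (f^[n] (R (0, t)), f^[n] (R (s, t))) ∈ 𝒰 ∧
        (f.symm^[n] (R (s, 0)), f.symm^[n] (R (s, t))) ∈ 𝒰

end Pool.Agent.K6.H72.FB
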