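import Pool.Agent.K6.H72.FB.A2
import Pool.Agent.K6.H72.FB.Defs
import Pool.Agent.TH304.K289.J919

/-!
# Locally trivial maps: lifting of displacements and of paths
-/

set_option autoImplicit false
set_option linter.unusedSectionVars false

open Filter Topology Set Metric unitInterval

namespace Pool.Agent.K6.H72.FB

open Pool.Agent.H721R2 Pool.Agent.H789R2.AN Pool.Agent.H789R2.GP Pool.Agent.TH289.K
  Pool.Agent.TH289.L Pool.Agent.TH304.K289

variable {X Y : Type*} [MetricSpace X] [MetricSpace Y] [CompactSpace X] [CompactSpace Y]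
  {g : X ≃ₜ X} {k : Y ≃ₜ Y} {h : X → Y} {c c' : ℝ}

theorem unif {X : Type*} [MetricSpace X] [CompactSpace X] (P : ℝ → X → Prop)
    (hP : ∀ ρ ρ' x, ρ' ≤ ρ → P ρ x → P ρ' x) (hl : ∀ x₀, ∃ ρ > 0, ∀ᶠ x in 𝓝 x₀, P ρ x) :
    ∃ ρ > 0, ∀ x, P ρ x := by
  have key : ∃ ρ > 0, ∀ x ∈ (univ : Set X), P ρ x := by
    refine isCompact_univ.induction_on (p := fun s => ∃ ρ > 0, ∀ x ∈ s, P ρ x)
      ⟨1, one_pos, fun x hx => hx.elim⟩ ?_ ?_ ?_
    · rintro s t hst ⟨ρ, hρ, h1⟩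
      exact ⟨ρ, hρ, fun x hx => h1 x (hst hx)⟩
    · rintro s t ⟨ρ, hρ, h1⟩ ⟨ρ', hρ', h2⟩
      refine ⟨min ρ ρ', lt_min hρ hρ', ?_⟩
      rintro x (hx | hx)
      · exact hP _ _ _ (min_le_left _ _) (h1 x hx)
      · exact hP _ _ _ (min_le_right _ _) (h2 x hx)
    · intro x _
      obtain ⟨ρ, hρ, h1⟩ := hl x
      exact ⟨{x | P ρ x}, mem_nhdsWithin_of_mem_nhds h1, ρ, hρ, fun y hy => hy⟩
  obtain ⟨ρ, hρ, h1⟩ := key
  exact ⟨ρ, hρ, fun x => h1 x (mem_univ x)⟩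

theorem exists_trans (hc : Continuous h) (hT : LocTriv h) (x₀ : X) : ∃ τ : X × Y → X, ∃ ρ > 0,
    (∀ x b, dist x x₀ < ρ → dist b (h x₀) < ρ → h (τ (x, b)) = b) ∧
    (∀ x, dist x x₀ < ρ → τ (x, h x) = x) ∧
    ContinuousOn τ {p | dist p.1 x₀ < ρ ∧ dist p.2 (h x₀) < ρ} := by
  obtain ⟨e, he⟩ := hT (h x₀)
  obtain ⟨r₁, hr₁, h1⟩ := Metric.mem_nhds_iff.1 (e.open_baseSet.mem_nhds he)
  obtain ⟨r₂, hr₂, h2⟩ := Metric.continuous_iff.1 hc x₀ r₁ hr₁
  have hs : ∀ x, dist x x₀ < min r₁ r₂ → x ∈ e.source := fun x hx => by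
    rw [e.mem_source]
    exact h1 (h2 x (hx.trans_le (min_le_right _ _)))
  have hb : ∀ b, dist b (h x₀) < min r₁ r₂ → b ∈ e.baseSet := fun b hb =>
    h1 (hb.trans_le (min_le_left _ _))
  refine ⟨fun p => e.toOpenPartialHomeomorph.symm (p.2, (e p.1).2), min r₁ r₂, lt_min hr₁ hr₂,
    fun x b hx hb' => ?_, fun x hx => ?_, ?_⟩
  · exact e.proj_symm_apply (e.mem_target.2 (hb b hb'))
  · show e.toOpenPartialHomeomorph.symm (h x, (e x).2) = x
    have h3 : (h x, (e x).2) = e x := by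
      rw [← e.coe_fst (hs x hx)]
    rw [h3]
    exact e.toOpenPartialHomeomorph.left_inv (hs x hx)
  · refine e.toOpenPartialHomeomorph.continuousOn_symm.comp ?_ ?_
    · refine continuousOn_snd.prodMk ?_
      refine continuous_snd.comp_continuousOn (e.continuousOn_toFun.comp continuousOn_fst ?_)
      intro p hp
      exact hs _ hp.1
    · intro p hp
      exact e.mem_target.2 (hb _ hp.2)

/-- uniform transport between nearby fibres -/
theorem transport (hc : Continuous h) (hT : LocTriv h) {ε : ℝ} (hε : 0 < ε) : ∃ δ > 0, ∀ x : X,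
    ∃ τ : X × Y → X, (∀ x' b, dist x x' < δ → dist (h x) b < δ → h (τ (x', b)) = b ∧
      dist x (τ (x', b)) < ε) ∧ (∀ x', dist x x' < δ → τ (x', h x') = x') ∧
      ContinuousOn τ {p | dist x p.1 < δ ∧ dist (h x) p.2 < δ} := by
  refine unif (fun δ x => ∃ τ : X × Y → X, (∀ x' b, dist x x' < δ → dist (h x) b < δ →
    h (τ (x', b)) = b ∧ dist x (τ (x', b)) < ε) ∧ (∀ x', dist x x' < δ → τ (x', h x') = x') ∧
      ContinuousOn τ {p | dist x p.1 < δ ∧ dist (h x) p.2 < δ}) ?_ ?_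
  · rintro ρ ρ' x hρ ⟨τ, h1, h2, h3⟩
    refine ⟨τ, fun x' b hx hb => h1 x' b (hx.trans_le hρ) (hb.trans_le hρ),
      fun x' hx => h2 x' (hx.trans_le hρ), h3.mono fun p hp => ?_⟩
    exact ⟨hp.1.trans_le hρ, hp.2.trans_le hρ⟩
  · intro x₀
    obtain ⟨τ, ρ, hρ, h1, h2, h3⟩ := exists_trans hc hT x₀
    have h0 : τ (x₀, h x₀) = x₀ := h2 x₀ (by rwa [dist_self])
    have hcont : ContinuousAt τ (x₀, h x₀) := by
      refine h3.continuousAt ?_
      have ho : IsOpen {p : X × Y | dist p.1 x₀ < ρ ∧ dist p.2 (h x₀) < ρ} :=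
        (isOpen_lt (continuous_fst.dist continuous_const) continuous_const).inter
          (isOpen_lt (continuous_snd.dist continuous_const) continuous_const)
      exact ho.mem_nhds ⟨by simpa using hρ, by simpa using hρ⟩
    obtain ⟨ρ₁, hρ₁, h4⟩ := Metric.continuousAt_iff.1 hcont (ε / 2) (half_pos hε)
    rw [h0] at h4
    obtain ⟨ρ₂, hρ₂, h5⟩ := Metric.continuous_iff.1 hc x₀ (min ρ ρ₁ / 2) (by positivity)
    refine ⟨min ρ ρ₁ / 2, by positivity, ?_⟩
    have hball : ∀ᶠ x in 𝓝 x₀, dist x x₀ < min (min ρ ρ₁ / 2) (min ρ₂ (ε / 2)) :=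
      ball_mem_nhds _ (by positivity)
    filter_upwards [hball] with x hx
    have e1 : dist x x₀ < min ρ ρ₁ / 2 := hx.trans_le (min_le_left _ _)
    have e2 : dist (h x) (h x₀) < min ρ ρ₁ / 2 :=
      h5 x (hx.trans_le ((min_le_right _ _).trans (min_le_left _ _)))
    have e3 : dist x x₀ < ε / 2 := hx.trans_le ((min_le_right _ _).trans (min_le_right _ _))
    have f1 : ∀ x', dist x x' < min ρ ρ₁ / 2 → dist x' x₀ < min ρ ρ₁ := fun x' hx' => by
      have := dist_triangle_left x' x₀ x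
      linarith
    have f2 : ∀ b, dist (h x) b < min ρ ρ₁ / 2 → dist b (h x₀) < min ρ ρ₁ := fun b hb => by
      have := dist_triangle_left b (h x₀) (h x)
      linarith
    refine ⟨τ, fun x' b hx' hb => ⟨?_, ?_⟩, fun x' hx' => ?_, h3.mono fun p hp => ?_⟩
    · exact h1 _ _ ((f1 x' hx').trans_le (min_le_left _ _)) ((f2 b hb).trans_le (min_le_left _ _))
    · have h6 : dist (x', b) (x₀, h x₀) < ρ₁ := by
        rw [Prod.dist_eq]
        exact max_lt ((f1 x' hx').trans_le (min_le_right _ _))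
          ((f2 b hb).trans_le (min_le_right _ _))
      have h7 := h4 h6
      have := dist_triangle_right x (τ (x', b)) x₀
      linarith
    · exact h2 x' ((f1 x' hx').trans_le (min_le_left _ _))
    · exact ⟨(f1 _ hp.1).trans_le (min_le_left _ _), (f2 _ hp.2).trans_le (min_le_left _ _)⟩

/-- expansivity, in the form used below -/
theorem eq_of_br (hk : LP k c') {b z b' : Y} (h1 : SR k (c' / 2) b z)
    (h2 : SR k.symm (c' / 2) b' z) (h3 : SR k (c' / 2) b b') : b' = z := by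
  have hc := hk.c_pos
  refine expansive hk ?_ (h2.mono (by linarith))
  exact (h3.symm'.tr12 h1).mono (by linarith)

theorem dl_of_locTriv (hg : LP g c) (hk : LP k c') (H : SC g k h) (hT : LocTriv h) :
    DL g k h := by
  intro a s' has
  have hc' := hk.c_pos
  obtain ⟨δ₁, hδ₁, h1⟩ := H.mapS (half_pos hc')
  obtain ⟨δ₂, hδ₂, h2⟩ := H.mapU (half_pos hc')
  obtain ⟨δ₃, hδ₃, h3⟩ := hg.lp (min c (min δ₁ δ₂)) (lt_min hg.c_pos (lt_min hδ₁ hδ₂))
  obtain ⟨δ₄, hδ₄, h4⟩ := transport H.cont hT hδ₃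
  obtain ⟨n, hn⟩ := has.eventually_lt (lt_min hδ₄ (half_pos hc'))
  have hhn : h (g^[n] a) = k^[n] (h a) := H.iter n a
  obtain ⟨τ, t1, -, -⟩ := h4 (g^[n] a)
  obtain ⟨t2, t3⟩ := t1 (g^[n] a) (k^[n] s') (by rw [dist_self]; exact hδ₄) (by
    rw [hhn]
    exact (hn n le_rfl).trans_le (min_le_left _ _))
  obtain ⟨z, hz1, hz2⟩ := h3 _ _ t3
  have e1 : SR k (c' / 2) (h (g^[n] a)) (h z) :=
    h1 _ _ (hz1.mono ((min_le_right _ _).trans (min_le_left _ _)))
  have e2 : SR k.symm (c' / 2) (k^[n] s') (h z) := by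
    have := h2 _ _ (hz2.mono ((min_le_right _ _).trans (min_le_right _ _)))
    rwa [t2] at this
  have e3 : SR k (c' / 2) (h (g^[n] a)) (k^[n] s') := fun j => by
    rw [hhn, ← Function.iterate_add_apply, ← Function.iterate_add_apply]
    exact ((hn (j + n) (by omega)).trans_le (min_le_right _ _)).le
  have e4 : k^[n] s' = h z := eq_of_br hk e1 e2 e3
  refine ⟨g.symm^[n] z, ?_, ?_⟩
  · rw [← WS.iter n, iterR]
    exact WS_of_SR12 hg (hz1.mono (min_le_left _ _))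
  · rw [H.iter', ← e4]
    exact iterL k n s'

/-- paths of brackets -/
theorem br_path (h : LP g c) {br : X → X → X} {δ : ℝ}
    (b1 : ∀ x y, dist x y < δ → SR g (c / 3) x (br x y) ∧ SR g.symm (c / 3) y (br x y))
    (b4 : ∀ ε > 0, ∃ η > 0, ∀ x x' y y', dist x y < δ → dist x' y' < δ → dist x x' < η →
        dist y y' < η → dist (br x y) (br x' y') < ε) (a : X) (κ : C(I, X))
    (hκ : ∀ t, dist a (κ t) < δ) : ∃ v : C(I, SM g), ∀ t, (v t).val = br a (κ t) := by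
  have hc := h.c_pos
  refine ⟨⟨fun t => ⟨br a (κ t)⟩, ?_⟩, fun _ => rfl⟩
  rw [Metric.continuous_iff']
  intro t ε hε
  obtain ⟨η, hη, h1⟩ := qs_SR_of_dist h (ε / 2) (half_pos hε)
  obtain ⟨η', hη', h2⟩ := b4 η hη
  filter_upwards [(Metric.continuous_iff'.1 κ.continuous) t η' hη'] with r hr
  refine lt_of_le_of_lt ((SM.dist_le _ _ (half_pos hε).le).2 ?_) (half_lt_self hε)
  refine h1 _ _ ?_ ?_
  · exact ((b1 _ _ (hκ r)).1.symm'.tr12 (b1 _ _ (hκ t)).1).mono (by linarith)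
  · exact h2 _ _ _ _ (hκ r) (hκ t) (by rw [dist_self]; exact hη') hr

/-- pulling back a path -/
theorem pull_path (n : ℕ) (v : C(I, SM g)) : ∃ w : C(I, SM g), ∀ t, (w t).val = g.symm^[n] (v t).val := by
  have hcm : ∀ x, g.symm (g x) = g (g.symm x) := fun x => by
    rw [g.symm_apply_apply, g.apply_symm_apply]
  exact ⟨⟨fun t => ⟨g.symm^[n] (v t).val⟩, (SM.continuous_mapIter hcm n).comp v.continuous⟩,
    fun _ => rfl⟩

/-- stable displacements in a fibre are joined by stable paths in this fibre -/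
theorem vp_of_locTriv (hg : LP g c) (hk : LP k c') (hX : ULC X) (H : SC g k h) (hT : LocTriv h)
    (a s : X) (has : WS g a s) (he : h a = h s) :
    ∃ α : C(I, SM g), (α 0).val = a ∧ (α 1).val = s ∧ ∀ r, h (α r).val = h a := by
  have hc := hg.c_pos
  have hc' := hk.c_pos
  obtain ⟨br, δ, hδ, b1, b2, b3, b4⟩ := exists_br hg
  obtain ⟨δ₁, hδ₁, h1⟩ := H.mapS (half_pos hc')
  obtain ⟨δ₂, hδ₂, h2⟩ := H.mapU (half_pos hc')
  obtain ⟨δ₃, hδ₃, h3⟩ := b2 (min δ₁ δ₂) (lt_min hδ₁ hδ₂)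
  obtain ⟨δ₄, hδ₄, h4⟩ := transport H.cont hT (lt_min hδ hδ₃)
  obtain ⟨δ₅, hδ₅, h5⟩ := hX.path δ₄ hδ₄
  obtain ⟨n, hn⟩ := has.eventually_lt (ε := min δ₅ (min δ (c / 3)))
    (lt_min hδ₅ (lt_min hδ (by positivity)))
  have hfib : h (g^[n] a) = h (g^[n] s) := by rw [H.iter, H.iter, he]
  obtain ⟨κ₀, k0, k1, kt⟩ := h5 (g^[n] a) (g^[n] a) (g^[n] s) (mem_ball_self hδ₅) (by
    rw [mem_ball, dist_comm]
    exact (hn n le_rfl).trans_le (min_le_left _ _))
  obtain ⟨τ, t1, t2, t3⟩ := h4 (g^[n] a)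
  have kt' : ∀ t, dist (g^[n] a) (κ₀ t) < δ₄ := fun t => by
    have := kt t
    rwa [mem_ball, dist_comm] at this
  have hbb : dist (h (g^[n] a)) (h (g^[n] a)) < δ₄ := by rw [dist_self]; exact hδ₄
  let κ : C(I, X) := ⟨fun t => τ (κ₀ t, h (g^[n] a)), t3.comp_continuous (by fun_prop)
    (fun t => ⟨kt' t, hbb⟩)⟩
  have hκ : ∀ t, h (κ t) = h (g^[n] a) ∧ dist (g^[n] a) (κ t) < min δ δ₃ := fun t =>
    t1 _ _ (kt' t) hbb
  have hκd : ∀ t, dist (g^[n] a) (κ t) < δ := fun t => (hκ t).2.trans_le (min_le_left _ _)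
  have hκ0 : κ 0 = g^[n] a := by
    show τ (κ₀ 0, h (g^[n] a)) = g^[n] a
    rw [k0]
    exact t2 _ (by rw [dist_self]; exact hδ₄)
  have hκ1 : κ 1 = g^[n] s := by
    show τ (κ₀ 1, h (g^[n] a)) = g^[n] s
    rw [k1, hfib]
    refine t2 _ ?_
    have := kt' 1
    rwa [k1] at this
  obtain ⟨v, hv⟩ := br_path hg b1 b4 (g^[n] a) κ hκd
  obtain ⟨w, hw⟩ := pull_path n v
  refine ⟨w, ?_, ?_, fun r => ?_⟩
  · rw [hw, hv, hκ0, ← b3 (g^[n] a) (g^[n] a) (g^[n] a) (by rw [dist_self]; exact hδ)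
      (SR_zero (by positivity)) (SR_zero (by positivity))]
    exact iterL g n a
  · rw [hw, hv, hκ1, ← b3 (g^[n] a) (g^[n] s) (g^[n] s) ?_ ?_ (SR_zero (by positivity))]
    · exact iterL g n s
    · exact (hn n le_rfl).trans_le ((min_le_right _ _).trans (min_le_left _ _))
    · intro j
      rw [← Function.iterate_add_apply, ← Function.iterate_add_apply]
      exact ((hn (j + n) (by omega)).trans_le ((min_le_right _ _).trans (min_le_right _ _))).le
  · rw [hw, H.iter', hv]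
    have e := h3 _ _ ((hκ r).2.trans_le (min_le_right _ _))
    have e1 : SR k (c' / 2) (h (g^[n] a)) (h (br (g^[n] a) (κ r))) :=
      h1 _ _ (e.1.mono (min_le_left _ _))
    have e2 : SR k.symm (c' / 2) (h (g^[n] a)) (h (br (g^[n] a) (κ r))) := by
      have := h2 _ _ (e.2.mono (min_le_right _ _))
      rwa [(hκ r).1] at this
    rw [← eq_of_br hk e1 e2 (SR_zero (by positivity)), H.iter]
    exact iterL k n (h a)

/-- stable paths can be lifted -/
theorem path_lift (hg : LP g c) (hk : LP k c') (H : SC g k h) (hT : LocTriv h)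
    (a : X) (α' : C(I, SM k)) (h0 : (α' 0).val = h a) :
    ∃ α : C(I, SM g), (α 0).val = a ∧ ∀ r, h (α r).val = (α' r).val := by
  have hc := hg.c_pos
  have hc' := hk.c_pos
  obtain ⟨br, δ, hδ, b1, b2, b3, b4⟩ := exists_br hg
  obtain ⟨δ₁, hδ₁, h1⟩ := H.mapS (half_pos hc')
  obtain ⟨δ₂, hδ₂, h2⟩ := H.mapU (half_pos hc')
  obtain ⟨δ₃, hδ₃, h3⟩ := b2 (min δ₁ δ₂) (lt_min hδ₁ hδ₂)
  obtain ⟨δ₄, hδ₄, h4⟩ := transport H.cont hT (lt_min hδ hδ₃)
  obtain ⟨n, hn⟩ := path_small hk α' (η := min (δ₄ / 2) (c' / 2))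
    (lt_min (half_pos hδ₄) (half_pos hc'))
  have hn := hn n le_rfl
  have hhn : h (g^[n] a) = k^[n] (α' 0).val := by rw [H.iter, h0]
  rw [← hhn] at hn
  obtain ⟨τ, t1, t2, t3⟩ := h4 (g^[n] a)
  have hd : ∀ t, dist (h (g^[n] a)) (k^[n] (α' t).val) < δ₄ := fun t => by
    have := ((hn t).mono (min_le_left _ _)).dist12
    linarith
  have haa : dist (g^[n] a) (g^[n] a) < δ₄ := by rw [dist_self]; exact hδ₄
  let κ : C(I, X) := ⟨fun t => τ (g^[n] a, k^[n] (α' t).val), t3.comp_continuous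
    (continuous_const.prodMk ((SM.continuous_iter_val n).comp α'.continuous))
    (fun t => ⟨haa, hd t⟩)⟩
  have hκ : ∀ t, h (κ t) = k^[n] (α' t).val ∧ dist (g^[n] a) (κ t) < min δ δ₃ := fun t =>
    t1 _ _ haa (hd t)
  have hκd : ∀ t, dist (g^[n] a) (κ t) < δ := fun t => (hκ t).2.trans_le (min_le_left _ _)
  have hκ0 : κ 0 = g^[n] a := by
    show τ (g^[n] a, k^[n] (α' 0).val) = g^[n] a
    rw [← hhn]
    exact t2 _ haa
  obtain ⟨v, hv⟩ := br_path hg b1 b4 (g^[n] a) κ hκd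
  obtain ⟨w, hw⟩ := pull_path n v
  refine ⟨w, ?_, fun r => ?_⟩
  · rw [hw, hv, hκ0, ← b3 (g^[n] a) (g^[n] a) (g^[n] a) (by rw [dist_self]; exact hδ)
      (SR_zero (by positivity)) (SR_zero (by positivity))]
    exact iterL g n a
  · rw [hw, H.iter', hv]
    have e := h3 _ _ ((hκ r).2.trans_le (min_le_right _ _))
    have e1 : SR k (c' / 2) (h (g^[n] a)) (h (br (g^[n] a) (κ r))) :=
      h1 _ _ (e.1.mono (min_le_left _ _))
    have e2 : SR k.symm (c' / 2) (k^[n] (α' r).val) (h (br (g^[n] a) (κ r))) := by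
      have := h2 _ _ (e.2.mono (min_le_right _ _))
      rwa [(hκ r).1] at this
    rw [← eq_of_br hk e1 e2 ((hn r).mono (min_le_right _ _))]
    exact iterL k n _

end Pool.Agent.K6.H72.FB
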