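import Pool.Agent.K6.H72.FB.A3
import Pool.Agent.TH289.K.A9

/-!
# Global product structure of the total space, of the base and of the fibres
-/

set_option autoImplicit false
set_option linter.unusedSectionVars false

open Filter Topology Set Metric unitInterval
open scoped Manifold ContDiff

namespace Pool.Agent.K6.H72.FB

open Pool.Agent.H721R2 Pool.Agent.H789R2.AN Pool.Agent.H789R2.GP Pool.Agent.TH289.K
  Pool.Agent.TH289.L Pool.Agent.TH304.K289
open Pool.Agent.TH304.K289.J919 (lf_of_gps)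

section metric

variable {X Y : Type*} [MetricSpace X] [MetricSpace Y] [CompactSpace X] [CompactSpace Y]
  {g : X ≃ₜ X} {k : Y ≃ₜ Y} {h : X → Y} {c c' : ℝ}

/-- strips in a rectangle -/
theorem strip_of_con (R : C(I × I, X)) (hA : Con g (fun p : I × I => R (0, p.2)) (fun p => R p))
    (hB : Con g.symm (fun p : I × I => R (p.1, 0)) (fun p => R p)) (s₁ s₂ : I) :
    ∃ Γ : C(I, Pr g), (∀ t, (Γ t).x = R (s₁, t)) ∧ ∀ t, (Γ t).y = R (s₂, t) := by
  have hW : ∀ s t, WS g (R (0, t)) (R (s, t)) := fun s t => hA.toWS (s, t)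
  have hcU : ∀ s : I, Continuous fun t : I => (⟨R (s, t)⟩ : SM g.symm) := by
    intro s
    have hcon : Con g.symm (fun _ : I => R (s, 0)) (fun t : I => R (s, t)) := by
      intro ε hε
      obtain ⟨n, hn⟩ := hB ε hε
      exact ⟨n, fun m hm t => hn m hm (s, t)⟩
    rw [Metric.continuous_iff']
    intro t ε hε
    have hc : Continuous (fun t : I => R (s, t)) := R.continuous.comp (by fun_prop)
    filter_upwards [hcon.cont hc t (half_pos hε)] with r hr
    exact lt_of_le_of_lt ((SM.dist_le _ _ (half_pos hε).le).2 hr.symm') (half_lt_self hε)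
  refine ⟨⟨fun t => ⟨R (s₁, t), R (s₂, t), (hW s₁ t).symm'.trans (hW s₂ t)⟩, ?_⟩,
    fun _ => rfl, fun _ => rfl⟩
  rw [Pr.continuous_iff]
  refine ⟨hcU s₁, hcU s₂, fun t ε hε => ?_⟩
  obtain ⟨n, hn⟩ := hA (ε / 2) (half_pos hε)
  refine ⟨n, Eventually.of_forall fun r m hm => ?_⟩
  have h1 := hn m hm (s₁, r)
  have h2 := hn m hm (s₂, r)
  have h3 := dist_triangle_left (g^[m] (R (s₁, r))) (g^[m] (R (s₂, r))) (g^[m] (R (0, r)))
  show dist (g^[m] (R (s₁, r))) (g^[m] (R (s₂, r))) ≤ ε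
  linarith

theorem con_of_rect {f : X ≃ₜ X} {N : ℕ} (hN : 1 ≤ N) (R : C(I × I, X))
    (hR : ∀ 𝒰 ∈ 𝓝ˢ (diagonal X), ∀ᶠ n in atTop, ∀ s t : I,
      (f^[n] (R (0, t)), f^[n] (R (s, t))) ∈ 𝒰 ∧
      (f.symm^[n] (R (s, 0)), f.symm^[n] (R (s, t))) ∈ 𝒰) :
    Con (iterHomeo f N) (fun p : I × I => R (0, p.2)) (fun p => R p) ∧
    Con (iterHomeo f N).symm (fun p : I × I => R (p.1, 0)) (fun p => R p) := by
  constructor
  · apply Con.to_iter hN
    intro ε hε
    have h1 : {p : X × X | dist p.1 p.2 < ε} ∈ 𝓝ˢ (diagonal X) :=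
      (diag_iff _).2 ⟨ε, hε, fun x y hxy => hxy⟩
    obtain ⟨n, hn⟩ := eventually_atTop.1 (hR _ h1)
    exact ⟨n, fun m hm p => ((hn m hm p.1 p.2).1 : dist _ _ < ε).le⟩
  · rw [it_symm]
    apply Con.to_iter hN
    intro ε hε
    have h1 : {p : X × X | dist p.1 p.2 < ε} ∈ 𝓝ˢ (diagonal X) :=
      (diag_iff _).2 ⟨ε, hε, fun x y hxy => hxy⟩
    obtain ⟨n, hn⟩ := eventually_atTop.1 (hR _ h1)
    exact ⟨n, fun m hm p => ((hn m hm p.1 p.2).2 : dist _ _ < ε).le⟩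

theorem sp_of_sm {f : X ≃ₜ X} {N : ℕ} (hN : 1 ≤ N) (hg : LP (iterHomeo f N) c)
    (v : C(I, SM (iterHomeo f N))) :
    StablePath f ⟨fun t => (v t).val, SM.val_continuous.comp v.continuous⟩ := by
  rw [stablePath_iff]
  apply Con.of_iter hN
  intro ε hε
  obtain ⟨n, hn⟩ := path_small hg v hε
  exact ⟨n, fun m hm t => hn m hm t 0⟩

theorem sp_of_sm' {f : X ≃ₜ X} {N : ℕ} (hN : 1 ≤ N) (hg : LP (iterHomeo f N) c)
    (v : C(I, SM (iterHomeo f N).symm)) :
    StablePath f.symm ⟨fun t => (v t).val, SM.val_continuous.comp v.continuous⟩ := by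
  rw [stablePath_iff]
  apply Con.of_iter hN
  rw [← it_symm]
  intro ε hε
  obtain ⟨n, hn⟩ := path_small hg.symm v hε
  exact ⟨n, fun m hm t => hn m hm t 0⟩

theorem sm_of_con {α : C(I, X)} (hα : Con g (fun _ : I => α 0) (fun t => α t)) :
    ∃ v : C(I, SM g), ∀ t, (v t).val = α t := by
  refine ⟨⟨fun t => ⟨α t⟩, ?_⟩, fun _ => rfl⟩
  rw [Metric.continuous_iff']
  intro t ε hε
  filter_upwards [hα.cont α.continuous t (half_pos hε)] with r hr
  exact lt_of_le_of_lt ((SM.dist_le _ _ (half_pos hε).le).2 hr.symm') (half_lt_self hε)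

/-- fibrewise strips from the product structure of the fibres -/
theorem v2_of_fibreGPS {f : X ≃ₜ X} {N : ℕ} (hN : 1 ≤ N) (hg : LP (iterHomeo f N) c)
    (hF : FibreGPS f h) {a u : X}
    (hβ : ∃ β : C(I, SM (iterHomeo f N).symm), (β 0).val = a ∧ (β 1).val = u ∧
      ∀ r, h (β r).val = h a)
    (α : C(I, SM (iterHomeo f N))) (hα0 : (α 0).val = a) (hαv : ∀ r, h (α r).val = h a) :
    ∃ x, LO (g := (iterHomeo f N).symm) α u x := by
  obtain ⟨β, hβ0, hβ1, hβv⟩ := hβ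
  obtain ⟨R, hR1, hR2, -, hR4⟩ := hF ⟨fun t => (α t).val, SM.val_continuous.comp α.continuous⟩
    ⟨fun t => (β t).val, SM.val_continuous.comp β.continuous⟩ (sp_of_sm hN hg α)
    (sp_of_sm' hN hg β) (hα0.trans hβ0.symm) (fun s => (hαv s).trans (hαv 0).symm)
    (fun s => (hβv s).trans (hβv 0).symm)
  have hR1 : ∀ s, R (s, 0) = (α s).val := hR1
  have hR2 : ∀ s, R (0, s) = (β s).val := hR2
  obtain ⟨hA, hB⟩ := con_of_rect hN R hR4
  have hA' : Con (iterHomeo f N).symm (fun p : I × I => (R.comp ⟨Prod.swap, continuous_swap⟩)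
      (0, p.2)) (fun p => (R.comp ⟨Prod.swap, continuous_swap⟩) p) := by
    intro ε hε
    obtain ⟨n, hn⟩ := hB ε hε
    exact ⟨n, fun m hm p => hn m hm p.swap⟩
  have hB' : Con (iterHomeo f N).symm.symm (fun p : I × I => (R.comp ⟨Prod.swap, continuous_swap⟩)
      (p.1, 0)) (fun p => (R.comp ⟨Prod.swap, continuous_swap⟩) p) := by
    intro ε hε
    obtain ⟨n, hn⟩ := hA ε hε
    exact ⟨n, fun m hm p => hn m hm p.swap⟩
  obtain ⟨Γ, g1, g2⟩ := strip_of_con (g := (iterHomeo f N).symm) _ hA' hB' 0 1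
  refine ⟨(Γ 1).y, Γ, ?_, rfl, fun t => ?_⟩
  · rw [g2]
    show R (0, 1) = u
    rw [hR2, hβ1]
  · rw [g1]
    show R (t, 0) = (α t).val
    rw [hR1]

theorem sc_iter {f : X ≃ₜ X} {f' : Y ≃ₜ Y} (H : SC f f' h) (N : ℕ) :
    SC (iterHomeo f N) (iterHomeo f' N) h := ⟨H.cont, fun x => H.iter N x⟩

/-- **Extension theorem**, abstract form. -/
theorem gps_ext {f : X ≃ₜ X} {f' : Y ≃ₜ Y} {N : ℕ} (hN : 1 ≤ N) (hg : LP (iterHomeo f N) c)
    (hk : LP (iterHomeo f' N) c') (hX : ULC X) (hY : ULC Y) (H : SC f f' h) (hT : LocTriv h)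
    (hG : GPS f') (hF : FibreGPS f h) : GPS f := by
  have HN := sc_iter H N
  have hall := lf_of_fib hg hk HN (dl_of_locTriv hg hk HN hT)
    (dl_of_locTriv hg.symm hk.symm HN.symm hT) (vp_of_locTriv hg hk hX HN hT) ?_
    (lf_of_gps hN hk hY hG)
  · obtain ⟨c₁, hc₁, ⟨T⟩⟩ := exists_IQS hg hX hall
    exact gps_of_iqs hN rfl hg hc₁ T
  · intro a u hau he α hα0 hαv
    exact v2_of_fibreGPS hN hg hF (vp_of_locTriv hg.symm hk.symm hX HN.symm hT a u hau he)
      α hα0 hαv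

/-- product structure of the fibres -/
theorem fibre_of_gps {f : X ≃ₜ X} {f' : Y ≃ₜ Y} {N : ℕ} (hN : 1 ≤ N)
    (hk : LP (iterHomeo f' N) c') (H : SC f f' h) (hG : GPS f) : FibreGPS f h := by
  intro α β hα hβ h0 hαv hβv
  obtain ⟨R, hR1, hR2, hR3⟩ := hG α β hα hβ h0
  refine ⟨R, hR1, hR2, ?_, hR3⟩
  have HN := sc_iter H N
  obtain ⟨hA, hB⟩ := con_of_rect hN R hR3
  rintro ⟨s, t⟩
  obtain ⟨Γ, g1, g2⟩ := strip_of_con R hA hB 0 s
  obtain ⟨Γ', k1, k2⟩ := map_strip HN Γ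
  have h5 := strip_unique hk Γ' (ContinuousMap.const I ⟨h (α 0), h (α 0), WS.refl _ _⟩)
    (fun r => ?_) 0 ?_ t
  · rw [k2, g2] at h5
    exact h5
  · rw [k1, g1, hR2, hβv, ← h0]
    rfl
  · rw [k2, g2, hR1, hαv]
    rfl

/-- product structure of the base -/
theorem base_of_gps {f : X ≃ₜ X} {f' : Y ≃ₜ Y} {N : ℕ} (hN : 1 ≤ N) (hg : LP (iterHomeo f N) c)
    (hk : LP (iterHomeo f' N) c') (H : SC f f' h) (hT : LocTriv h)
    (hs : Function.Surjective h) (hG : GPS f) : GPS f' := by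
  intro α' β' hα hβ h0
  have HN := sc_iter H N
  obtain ⟨a, ha⟩ := hs (α' 0)
  rw [stablePath_iff] at hα hβ
  obtain ⟨v, hv⟩ := sm_of_con (g := iterHomeo f' N) (hα.to_iter hN)
  obtain ⟨w, hw⟩ := sm_of_con (g := (iterHomeo f' N).symm) (by rw [it_symm]; exact hβ.to_iter hN)
  obtain ⟨α, a0, a1⟩ := path_lift hg hk HN hT a v (by rw [hv, ha])
  obtain ⟨β, b0, b1⟩ := path_lift hg.symm hk.symm HN.symm hT a w (by rw [hw, ha, h0])
  obtain ⟨R, hR1, hR2, hR3⟩ := hG ⟨fun t => (α t).val, SM.val_continuous.comp α.continuous⟩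
    ⟨fun t => (β t).val, SM.val_continuous.comp β.continuous⟩ (sp_of_sm hN hg α)
    (sp_of_sm' hN hg β) (a0.trans b0.symm)
  refine ⟨⟨fun p => h (R p), H.cont.comp R.continuous⟩, fun s => ?_, fun t => ?_, ?_⟩
  · show h (R (s, 0)) = α' s
    rw [hR1]
    show h (α s).val = α' s
    rw [a1, hv]
  · show h (R (0, t)) = β' t
    rw [hR2]
    show h (β t).val = β' t
    rw [b1, hw]
  · intro 𝒱 h𝒱
    obtain ⟨ε, hε, h1⟩ := (diag_iff _).1 h𝒱
    obtain ⟨δ, hδ, h2⟩ := Metric.uniformContinuous_iff.mp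
      (CompactSpace.uniformContinuous_of_continuous H.cont) ε hε
    have h3 : {p : X × X | dist p.1 p.2 < δ} ∈ 𝓝ˢ (diagonal X) :=
      (diag_iff _).2 ⟨δ, hδ, fun x y hxy => hxy⟩
    filter_upwards [hR3 _ h3] with n hn s t
    constructor
    · apply h1
      show dist (f'^[n] (h (R (0, t)))) (f'^[n] (h (R (s, t)))) < ε
      rw [← H.iter, ← H.iter]
      exact h2 (hn s t).1
    · apply h1
      show dist (f'.symm^[n] (h (R (s, 0)))) (f'.symm^[n] (h (R (s, t)))) < ε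
      rw [← H.iter', ← H.iter']
      exact h2 (hn s t).2

theorem surj_of_locTriv [Nonempty X] [PreconnectedSpace Y] (hc : Continuous h) (hT : LocTriv h) :
    Function.Surjective h := by
  rw [← range_eq_univ]
  have h1 : IsClosed (range h) := (isCompact_range hc).isClosed
  have h2 : IsOpen (range h) := by
    obtain ⟨δ, hδ, h3⟩ := transport hc hT one_pos
    rw [Metric.isOpen_iff]
    rintro _ ⟨x, rfl⟩
    refine ⟨δ, hδ, fun b hb => ?_⟩
    obtain ⟨τ, t1, -, -⟩ := h3 x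
    rw [mem_ball, dist_comm] at hb
    exact ⟨τ (x, b), (t1 x b (by rw [dist_self]; exact hδ) hb).1⟩
  exact IsClopen.eq_univ ⟨h1, h2⟩ (range_nonempty h)

end metric

end Pool.Agent.K6.H72.FB
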