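import Pool.Agent.K6.H72.FB.Defs

/-!
# Principal bundles of compact groups have product structure in the fibres
-/

set_option autoImplicit false
set_option linter.unusedSectionVars false

open Filter Topology Set unitInterval

namespace Pool.Agent.K6.H72.FB

open Pool.Agent.TH289.K

variable {M N G : Type*} [TopologicalSpace M] [T2Space M] [CompactSpace M] [Group G]
  [TopologicalSpace G] [IsTopologicalGroup G] [CompactSpace G] [MulAction G M] [ContinuousSMul G M]

/-- small elements move the points little -/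
theorem small_move {𝒰 : Set (M × M)} (h𝒰 : 𝒰 ∈ 𝓝ˢ (diagonal M)) :
    ∀ᶠ v : G in 𝓝 1, ∀ y : M, (y, v • y) ∈ 𝒰 := by
  obtain ⟨U, hU, hdU, hU𝒰⟩ := mem_nhdsSet_iff_exists.1 h𝒰
  have h1 := isCompact_univ.eventually_forall_of_forall_eventually (x₀ := (1 : G)) (K := univ)
    (P := fun v (y : M) => (y, v • y) ∈ 𝒰) ?_
  · exact h1.mono fun v hv y => hv y (mem_univ y)
  · intro y _
    have hc : Continuous fun p : G × M => (p.2, p.1 • p.2) := by fun_prop
    have h2 : (fun p : G × M => (p.2, p.1 • p.2)) (1, y) ∈ U := hdU (by simp)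
    filter_upwards [hc.continuousAt.preimage_mem_nhds (hU.mem_nhds h2)] with p hp
    exact hU𝒰 hp

omit [T2Space M] [CompactSpace M] [MulAction G M] [ContinuousSMul G M] [TopologicalSpace M] in
/-- conjugates of small elements of a compact group are small -/
theorem small_conj {V : Set G} (hV : V ∈ 𝓝 (1 : G)) :
    ∀ᶠ v : G in 𝓝 1, ∀ w : G, w * v * w⁻¹ ∈ V := by
  have h1 := isCompact_univ.eventually_forall_of_forall_eventually (x₀ := (1 : G)) (K := univ)
    (P := fun v (w : G) => w * v * w⁻¹ ∈ V) ?_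
  · exact h1.mono fun v hv y => hv y (mem_univ y)
  · intro w _
    have hc : Continuous fun p : G × G => p.2 * p.1 * p.2⁻¹ := by fun_prop
    have h2 : V ∈ 𝓝 ((fun p : G × G => p.2 * p.1 * p.2⁻¹) (1, w)) := by simpa using hV
    exact hc.continuousAt.preimage_mem_nhds h2

/-- elements that move a point little are small, if the action is free -/
theorem small_of_move (hfree : ∀ (v : G) (x : M), v • x = x → v = 1) {V : Set G}
    (hV : V ∈ 𝓝 (1 : G)) : {p : M × M | ∀ v : G, p.2 = v • p.1 → v ∈ V} ∈ 𝓝ˢ (diagonal M) := by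
  obtain ⟨W, hWV, hW, h1W⟩ := mem_nhds_iff.1 hV
  have hc : Continuous fun p : M × G => (p.1, p.2 • p.1) := by fun_prop
  have hK : IsCompact ((fun p : M × G => (p.1, p.2 • p.1)) '' (univ ×ˢ Wᶜ)) :=
    (isCompact_univ.prod hW.isClosed_compl.isCompact).image hc
  rw [mem_nhdsSet_iff_exists]
  refine ⟨_, hK.isClosed.isOpen_compl, ?_, ?_⟩
  · rintro ⟨x, y⟩ hxy
    simp only [mem_diagonal_iff] at hxy
    subst hxy
    rintro ⟨⟨z, v⟩, ⟨-, hv⟩, hz⟩
    simp only [Prod.mk.injEq] at hz
    obtain ⟨rfl, hz⟩ := hz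
    exact hv (by rw [hfree v _ hz]; exact h1W)
  · rintro ⟨x, y⟩ hxy v hv
    by_contra hvV
    refine hxy ⟨(x, v), ⟨mem_univ _, fun hvW => hvV (hWV hvW)⟩, ?_⟩
    simp only [Prod.mk.injEq, true_and]
    exact hv.symm

theorem iter_smul {f : M → M} {A : G → G} (hA : ∀ (v : G) (x : M), f (v • x) = A v • f x) (n : ℕ)
    (v : G) (x : M) : f^[n] (v • x) = A^[n] v • f^[n] x := by
  induction n with
  | zero => rfl
  | succ n ih => rw [Function.iterate_succ_apply', ih, hA, Function.iterate_succ_apply',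
      Function.iterate_succ_apply']

/-- the displacements along a path that shrinks are small -/
theorem disp_small {f : M → M} {A : G → G} (hA : ∀ (v : G) (x : M), f (v • x) = A v • f x)
    (hfree : ∀ (v : G) (x : M), v • x = x → v = 1) {x₀ : M} {a : I → G} {α : I → M}
    (hα : ∀ s, α s = a s • x₀)
    (hs : ∀ 𝒰 ∈ 𝓝ˢ (diagonal M), ∀ᶠ n in atTop, ∀ t, (f^[n] x₀, f^[n] (α t)) ∈ 𝒰)
    {V : Set G} (hV : V ∈ 𝓝 (1 : G)) : ∀ᶠ n : ℕ in atTop, ∀ s, A^[n] (a s) ∈ V := by
  filter_upwards [hs _ (small_of_move hfree hV)] with n hn s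
  refine hn s _ ?_
  show f^[n] (α s) = A^[n] (a s) • f^[n] x₀
  rw [hα, iter_smul hA]

/-- **Principal bundles of compact groups have product structure in the fibres.** -/
theorem fibre_of_principal (f : M ≃ₜ M) (h : M → N)
    (hfree : ∀ (v : G) (x : M), v • x = x → v = 1)
    (horb : ∀ x y : M, h x = h y ↔ ∃ v : G, y = v • x)
    (A : G ≃* G) (hA : ∀ (v : G) (x : M), f (v • x) = A v • f x) : FibreGPS f h := by
  intro α β hα hβ h0 hαv hβv
  have hA' : ∀ (v : G) (x : M), f.symm (v • x) = A.symm v • f.symm x := fun v x => by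
    apply f.injective
    rw [f.apply_symm_apply, hA, A.apply_symm_apply, f.apply_symm_apply]
  -- the paths of group elements
  have hinj : Function.Injective fun v : G => v • α 0 := by
    intro v w hvw
    have h1 : (w⁻¹ * v) • α 0 = α 0 := by
      rw [mul_smul]
      have h2 : v • α 0 = w • α 0 := hvw
      rw [h2, inv_smul_smul]
    have h3 := hfree _ _ h1
    rw [inv_mul_eq_one] at h3
    exact h3.symm
  have hemb : Topology.IsEmbedding fun v : G => v • α 0 := by
    have hc : Continuous fun v : G => v • α 0 := by fun_prop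
    exact (hc.isClosedEmbedding hinj).isEmbedding
  have hlift : ∀ γ : C(I, M), (∀ s, h (γ s) = h (α 0)) →
      ∃ a : C(I, G), ∀ s, γ s = a s • α 0 := by
    intro γ hγ
    have h1 : ∀ s, ∃ v : G, γ s = v • α 0 := fun s => (horb _ _).1 (hγ s).symm
    choose a ha using h1
    refine ⟨⟨a, ?_⟩, ha⟩
    rw [hemb.continuous_iff]
    exact γ.continuous.congr ha
  obtain ⟨a, ha⟩ := hlift α hαv
  obtain ⟨b, hb⟩ := hlift β (fun s => by rw [hβv, ← h0])
  have ha0 : a 0 = 1 := hfree _ _ (ha 0).symm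
  have hb0 : b 0 = 1 := by
    refine hfree _ (α 0) ?_
    rw [← hb 0, h0]
  refine ⟨⟨fun p => (a p.1 * b p.2) • α 0, by fun_prop⟩, fun s => ?_, fun t => ?_, fun p => ?_,
    fun 𝒰 h𝒰 => ?_⟩
  · show (a s * b 0) • α 0 = α s
    rw [hb0, mul_one, ← ha]
  · show (a 0 * b t) • α 0 = β t
    rw [ha0, one_mul, ← hb]
  · exact ((horb _ _).2 ⟨_, rfl⟩).symm
  · have hV := small_move (G := G) h𝒰
    have hV' := small_conj hV
    have e1 := disp_small hA hfree ha (fun 𝒰 h𝒰 => hα 𝒰 h𝒰) hV
    have e2 := disp_small (f := f.symm) (A := A.symm) hA' hfree (x₀ := α 0) (a := b) (α := β) hb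
      (fun 𝒰 h𝒰 => by
        have := hβ 𝒰 h𝒰
        rwa [← h0] at this) hV'
    filter_upwards [e1, e2] with n h1 h2 s t
    constructor
    · show (f^[n] ((a 0 * b t) • α 0), f^[n] ((a s * b t) • α 0)) ∈ 𝒰
      rw [ha0, one_mul, mul_smul, iter_smul hA n (a s)]
      exact h1 s _
    · show (f.symm^[n] ((a s * b 0) • α 0), f.symm^[n] ((a s * b t) • α 0)) ∈ 𝒰
      have e3 : (a s * b t) • α 0 = (a s * b t * (a s)⁻¹) • (a s • α 0) := by
        rw [smul_smul, inv_mul_cancel_right]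
      rw [hb0, mul_one, e3, iter_smul hA' n (a s * b t * (a s)⁻¹)]
      have e4 : (⇑A.symm)^[n] (a s * b t * (a s)⁻¹) =
          (⇑A.symm)^[n] (a s) * (⇑A.symm)^[n] (b t) * ((⇑A.symm)^[n] (a s))⁻¹ := by
        have e5 : (⇑A.symm)^[n] ((a s)⁻¹) = ((⇑A.symm)^[n] (a s))⁻¹ := iterate_map_inv _ _ _
        rw [iterate_map_mul, iterate_map_mul, e5]
      rw [e4]
      exact h2 t _ _

end Pool.Agent.K6.H72.FB
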